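import Pool.Agent.Helper33_FPP.CaseI
import Pool.Agent.Helper33_FPP.CaseII
import Pool.Agent.Helper33_FPP.CaseIII

/-!
# The limit shape of planar first-passage percolation is not the square

`Z2` is the nearest-neighbour graph on `ℤ × ℤ`, `passageTime w x y` is the infimum of the total
`w`-weight over all lattice walks from `x` to `y`, and `ext W ω` is the family of edge weights given
by the sample point `ω`.
-/

set_option autoImplicit false

open MeasureTheory ProbabilityTheory Filter Topology Pool.Agent.Helper33_FPP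

namespace Pool.Agent.Results.MP_081102_pr.NotSquare

/-- The infimum `r` of the support of a law on `[0, ∞)`. -/
theorem exists_inf_supp (F : Measure ℝ) [IsProbabilityMeasure F] (hneg : F (Set.Iio 0) = 0) :
    ∃ r : ℝ, 0 ≤ r ∧ F (Set.Iio r) = 0 ∧ ∀ s, r < s → 0 < F.real (Set.Iio s) := by
  have hbdd : BddAbove {s : ℝ | F (Set.Iio s) = 0} := by
    by_contra h
    rw [not_bddAbove_iff] at h
    have h1 : F (⋃ n : ℕ, Set.Iio (n : ℝ)) = 0 := by
      rw [measure_iUnion_null_iff]
      intro n
      obtain ⟨s, hs, hns⟩ := h n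
      exact measure_mono_null (Set.Iio_subset_Iio hns.le) hs
    have h2 : (⋃ n : ℕ, Set.Iio (n : ℝ)) = Set.univ := by
      ext x
      simp only [Set.mem_iUnion, Set.mem_Iio, Set.mem_univ, iff_true]
      exact exists_nat_gt x
    rw [h2, measure_univ] at h1
    exact one_ne_zero h1
  refine ⟨sSup {s : ℝ | F (Set.Iio s) = 0}, le_csSup hbdd hneg, ?_, ?_⟩
  · have hne : {s : ℝ | F (Set.Iio s) = 0}.Nonempty := ⟨0, hneg⟩
    have h1 : Set.Iio (sSup {s : ℝ | F (Set.Iio s) = 0}) ⊆
        ⋃ q : {q : ℚ // F (Set.Iio (q : ℝ)) = 0}, Set.Iio ((q : ℚ) : ℝ) := by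
      intro x hx
      obtain ⟨s, hs, hxs⟩ := exists_lt_of_lt_csSup hne hx
      obtain ⟨q, hq1, hq2⟩ := exists_rat_btwn hxs
      rw [Set.mem_iUnion]
      exact ⟨⟨q, measure_mono_null (Set.Iio_subset_Iio hq2.le) hs⟩, hq1⟩
    refine measure_mono_null h1 ?_
    rw [measure_iUnion_null_iff]
    intro q
    exact q.2
  · intro s hs
    have h1 : F (Set.Iio s) ≠ 0 := fun h => absurd (le_csSup hbdd h) (not_le.2 hs)
    exact ENNReal.toReal_pos h1 (measure_ne_top F _)

/-- Let `F` be a law on `[0, ∞)` with `F {0} < 1/2`. Then the time constant `μ` of first-passage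
percolation on `ℤ²` with i.i.d. weights of law `F` is not `μ(e₁) max(|x₁|,|x₂|)`: the limit shape
is not the square. -/
theorem result {Ω : Type} [MeasurableSpace Ω] (P : Measure Ω) [IsProbabilityMeasure P]
    (F : Measure ℝ) [IsProbabilityMeasure F] (W : Z2.edgeSet → Ω → ℝ)
    (hmeas : ∀ e, Measurable (W e)) (hindep : iIndepFun W P) (hlaw : ∀ e, P.map (W e) = F)
    (hnonneg : ∀ e ω, 0 ≤ W e ω) (hF0 : F.real {0} < 1 / 2)
    (μ : ℤ × ℤ → ℝ)
    (hμ : ∀ z : ℤ × ℤ, TendstoInMeasure P
      (fun (n : ℕ) ω => passageTime (ext W ω) 0 (n • z) / n) atTop (fun _ => μ z)) :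
    ∃ z : ℤ × ℤ, μ z ≠ μ (1, 0) * ((max |z.1| |z.2| : ℤ) : ℝ) := by
  by_contra hcon
  push Not at hcon
  have hneg : F (Set.Iio 0) = 0 := law_Iio hmeas hlaw hnonneg
  obtain ⟨r, hr0, hrF, hrs⟩ := exists_inf_supp F hneg
  -- the slope
  have hμ' : ∀ z : ℤ × ℤ, TendstoInMeasure P
      (fun (n : ℕ) ω => passageTime (ext W ω) 0 (n • z) / n) atTop
      (fun _ => μ (1, 0) / 2 * ((|A z| + |B z| : ℤ) : ℝ)) := by
    intro z
    have h1 := hμ z
    rw [hcon z] at h1
    have h2 : μ (1, 0) / 2 * ((|A z| + |B z| : ℤ) : ℝ) =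
        μ (1, 0) * ((max |z.1| |z.2| : ℤ) : ℝ) := by
      rw [abs_AB z]
      push_cast
      ring
    rw [h2]
    exact h1
  rcases lt_or_ge (F.real (Set.Iic r)) (1 / 2) with hr2 | hr2
  · -- small mass at the infimum
    obtain ⟨hi, hrhi, hhi2⟩ : ∃ hi, r < hi ∧ F.real (Set.Iic hi) < 1 / 2 := by
      have h1 := (cdf F).right_continuous r
      have h2 : (cdf F) r < 1 / 2 := by
        rw [cdf_eq_real]
        exact hr2
      have h3 : ∀ᶠ x in 𝓝[≥] r, (cdf F) x < 1 / 2 := h1.eventually (gt_mem_nhds h2)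
      obtain ⟨u, hu, hu2⟩ := (mem_nhdsGE_iff_exists_Ico_subset).1 h3
      refine ⟨(r + u) / 2, by simp only [Set.mem_Ioi] at hu; linarith, ?_⟩
      have := hu2 (show (r + u) / 2 ∈ Set.Ico r u by
        simp only [Set.mem_Ioi] at hu
        constructor <;> linarith)
      simp only [Set.mem_ofPred_eq] at this
      rwa [cdf_eq_real] at this
    have hlow : F.real (Set.Iio hi) ≤ F.real (Set.Iic hi) :=
      measureReal_mono Set.Iio_subset_Iic_self (measure_ne_top F _)
    have hpos : 0 < μ (1, 0) :=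
      speed_pos hmeas hindep hlaw hnonneg measureReal_nonneg hhi2 (by linarith) hlow (hμ (1, 0))
    exact no_square_I hmeas hindep hlaw hnonneg measureReal_nonneg hhi2
      (lo := (r + hi) / 2) (by linarith) (by linarith)
      (hrs _ (by linarith)) hlow (measureReal_mono Set.Iio_subset_Iic_self (measure_ne_top F _))
      (c := μ (1, 0) / 2) (by linarith) hμ'
  · -- large mass at the infimum: then `r > 0`
    have hsplit : F.real (Set.Iic r) = F.real {r} := by
      rw [measureReal_def, measureReal_def]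
      congr 1
      refine le_antisymm ?_ (measure_mono (by intro x hx; exact le_of_eq hx))
      have h1 : Set.Iic r ⊆ Set.Iio r ∪ {r} := by
        intro x hx
        rcases lt_or_eq_of_le (show x ≤ r from hx) with h | h
        · exact Or.inl h
        · exact Or.inr h
      calc F (Set.Iic r) ≤ F (Set.Iio r ∪ {r}) := measure_mono h1
        _ ≤ F (Set.Iio r) + F {r} := measure_union_le _ _
        _ = F {r} := by rw [hrF, zero_add]
    have hatom : 0 < F.real {r} := by rw [← hsplit]; linarith
    have hrpos : 0 < r := by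
      rcases hr0.eq_or_lt with h | h
      · rw [hsplit, ← h] at hr2
        linarith
      · exact h
    -- raise the weights to at least `r`
    have hm' : ∀ e, Measurable (Wr W r e) := fun e => (hmeas e).max measurable_const
    have hi' : iIndepFun (Wr W r) P := Wr_indep hindep
    have hl' : ∀ e, P.map (Wr W r e) = F := Wr_law hmeas hlaw hrF
    have hWr : ∀ e ω, r ≤ Wr W r e ω := fun e ω => le_max_right _ _
    have ht' : ∀ z : ℤ × ℤ, TendstoInMeasure P
        (fun (n : ℕ) ω => passageTime (ext (Wr W r) ω) 0 (n • z) / n) atTop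
        (fun _ => μ (1, 0) / 2 * ((|A z| + |B z| : ℤ) : ℝ)) :=
      fun z => Wr_tendsto hmeas hlaw hrF (hμ' z)
    have hrc : r ≤ μ (1, 0) / 2 := by
      have h1 := le_of_tendsto_low (a := r * 2) (ht' (1, 1)) (fun n ω => by
        have h2 := diag_le_passageTime (w := ext (Wr W r) ω) hr0 (fun e he => by
          unfold ext
          rw [dif_pos he]
          exact hWr _ _) n
        linarith)
      have h2 : ((|A (1, 1)| + |B (1, 1)| : ℤ) : ℝ) = 2 := by
        unfold A B
        norm_num
      rw [h2] at h1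
      linarith
    rcases hrc.eq_or_lt with h | h
    · refine no_square_III hm' hi' hl' hrpos hWr hrF hatom ?_
      intro z
      have := ht' z
      rwa [← h] at this
    · exact no_square_II hm' hi' hl' hrpos hWr hrF hatom h ht'

end Pool.Agent.Results.MP_081102_pr.NotSquare
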